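import Mathlib
import Pool.Agent.Lib.MP_435399_an.A1.Main

set_option autoImplicit false

open MeasureTheory Filter Topology

namespace Pool.Agent.Lib.MP_435399_an.Old.AllExponents

/-- Membership in the Bergman space of the unit disc with exponent `p`. -/
def InBergman (p : ℝ) (f : ℂ → ℂ) : Prop :=
  DifferentiableOn ℂ f (Metric.ball (0 : ℂ) 1) ∧
    IntegrableOn (fun w => ‖f w‖ ^ p) (Metric.ball (0 : ℂ) 1)

/-- The finite linear combination of the kernels `(1 - z n w)⁻²` over `n ∈ s` with coefficients `a`. -/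
noncomputable def kernelSum (z : ℕ → ℂ) (s : Finset ℕ) (a : ℕ → ℂ) (w : ℂ) : ℂ :=
  ∑ n ∈ s, a n * ((1 - z n * w) ^ 2)⁻¹

/-- The `p`-th power of the Bergman distance with exponent `p`. -/
noncomputable def distP (p : ℝ) (f g : ℂ → ℂ) : ℝ :=
  ∫ w in Metric.ball (0 : ℂ) 1, ‖f w - g w‖ ^ p

theorem result (p : ℝ) (hp : 1 ≤ p) (z : ℕ → ℂ) (hz : ∀ n, ‖z n‖ < 1)
    (hspan : ∃ u, InBergman p u ∧ ∃ ε : ℝ, 0 < ε ∧ ∀ s a, ε ≤ distP p u (kernelSum z s a))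
    (S : ℕ → Finset ℕ) (c : ℕ → ℕ → ℂ) (f : ℂ → ℂ) (hf : InBergman p f)
    (hconv : Tendsto (fun j => distP p (kernelSum z (S j) (c j)) f) atTop (𝓝 0))
    (E : Set ℂ) (w0 : ℂ) (hw0 : 1 < ‖w0‖) (hacc : AccPt w0 (𝓟 E))
    (hpole : ∀ w ∈ E, ∀ n, z n * w ≠ 1)
    (hE : ∀ w ∈ E, Tendsto (fun j => kernelSum z (S j) (c j) w) atTop (𝓝 0)) :
    ∀ w ∈ Metric.ball (0 : ℂ) 1, f w = 0 := by
  obtain ⟨u, ⟨hud, hui⟩, ε, hε, hfar⟩ := hspan
  exact Pool.Agent.Lib.MP_435399_an.A1.main hp hz hud hui hε hfar S c hf.1 hf.2 hconv hw0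
    ((accPt_iff_frequently_nhdsNE.mp hacc).mono fun w hw => ⟨hpole w hw, hE w hw⟩)

end Pool.Agent.Lib.MP_435399_an.Old.AllExponents
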